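import Pool.Agent.R351.GD.H.HodgeW
import Pool.Agent.Y730.MT.Nf
import Pool.Agent.Y730.MT.Td

/-!
# Windows of algebraic points of growing degree: Hodge loci of hypergeometric variations

Let `β_1, …, β_m` be rational numbers in `(0, 1)` and `θ = z d/dz`. The hypergeometric operator
`θ^(2m) - z ∏_j (θ + β_j) (θ + 1 - β_j)` has maximally unipotent monodromy at `z = 0` and underlies an irreducible
variation of Hodge structure of rank `2m` and of weight `2m - 1` with all Hodge numbers `h^{p,q} = 1` on the projective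
line minus three points, with generic Mumford–Tate group `GSp(2m)`; it is defined over `ℚ` if the set of the
`exp (2 π i β_j)^{±1}` with multiplicities is Galois stable. For `m = 2` and `β = (1/5, 2/5)` it is the variation of the
mirror quintic threefolds. In coordinates with respect to the Frobenius basis `f_0, …, f_{2m-1}` of solutions the step
`F^p`, `p ≥ m`, of the Hodge filtration is spanned by the rows `(θ^i f_0, …, θ^i f_{2m-1})`, `i + p < 2m`. The rational
structure is given by an invertible matrix `C`, with periods of the limiting mixed Hodge structure as entries. We prove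
for `m ≥ 2`: around every algebraic number `ξ` of degree `≤ g` and of height `≤ |ξ|^g` the fibres at the points
`z = 1 / (ξ - G u)`, `1 ≤ u ≤ H`, are Hodge generic with at most `m + 1` exceptions, as soon as
`(H + 2)^((g + 2)^C) ≤ |ξ|`, uniformly in all rational structures and in the degree `g`.
-/

set_option autoImplicit false

open PowerSeries

namespace Pool.Agent.Results.MP_cb64b0_ag.GrowingAlgebraicWindows

/-- the power series `x + ε` in the variable `ε` -/
noncomputable def shift (x : ℚ) : PowerSeries ℚ := C x + X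

/-- `a_k(ε) = ∏_{l < k} ∏_j (l + ε + β_j) (l + ε + 1 - β_j) / (l + 1 + ε)^2`. The series `∑_k a_k(ε) z^(k + ε)` satisfies
`(θ^n - z ∏_j (θ + β_j) (θ + 1 - β_j)) f = ε^n z^ε`, `n = 2m`, hence its coefficients `f_j` at `ε^j` with `j < n` are
solutions of the homogeneous equation. -/
noncomputable def frob {m : ℕ} (β : Fin m → ℚ) (k : ℕ) : PowerSeries ℚ :=
  ∏ l ∈ Finset.range k, ∏ j, (shift (l + β j) * shift (l + 1 - β j) * ((shift (l + 1))⁻¹) ^ 2)

/-- The row `((θ^i f_j)(1 / ξ))_j`, where `f_j(z)` is the coefficient of `ε^j` in the series `∑_k a_k(ε) z^(k + ε)`,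
`z^ε = ∑_a (log z)^a ε^a / a!`, with the value `-l` of `log z`, where `exp l = ξ`. -/
noncomputable def per {m : ℕ} (β : Fin m → ℚ) (ξ l : ℂ) (i : ℕ) : Fin (2 * m) → ℂ := fun j =>
  ∑ a ∈ Finset.range ((j : ℕ) + 1), (-l) ^ a / (a.factorial : ℂ) *
    ∑' k : ℕ, ((coeff ((j : ℕ) - a) (shift k ^ i * frob β k) : ℚ) : ℂ) * (1 / ξ) ^ k

/-- The nilpotent matrix: `exp (2 π i N)` is the local monodromy at `z = 0` in the basis `f_0, …, f_{n-1}`. -/
def N (n : ℕ) : Matrix (Fin n) (Fin n) ℂ := Matrix.of fun i j => if (j : ℕ) = i + 1 then 1 else 0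

/-- the matrix of the flat alternating form in the Frobenius basis -/
def S (n : ℕ) : Matrix (Fin n) (Fin n) ℂ := Matrix.of fun i j => if (i : ℕ) + j + 1 = n then (-1) ^ (i : ℕ) else 0

/-- a rational matrix as a complex matrix -/
def toC {n : ℕ} (M : Matrix (Fin n) (Fin n) ℚ) : Matrix (Fin n) (Fin n) ℂ := M.map fun x : ℚ => (x : ℂ)

/-- The base change `C` from the Frobenius basis to rational coordinates and the rational form `(v, w) ↦ v A wᵀ` on
`ℚ^n` (row vectors) are a rational structure with a form: the logarithm `2 π i C⁻¹ N C` of the local monodromy is rational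
and the form is proportional to the flat form `S`. -/
structure RationalStructure {n : ℕ} (C : Matrix (Fin n) (Fin n) ℂ) (A : Matrix (Fin n) (Fin n) ℚ) : Prop where
  det : C.det ≠ 0
  log : ∃ M : Matrix (Fin n) (Fin n) ℚ, C * toC M = (2 * (Real.pi : ℂ) * Complex.I) • (N n * C)
  form : ∃ κ : ℂ, κ ≠ 0 ∧ C * toC A * C.transpose = κ • S n

/-- `H p = H^{p, n-1-p}`, `p < n = 2m`, are the parts of a Hodge structure of weight `n - 1` on `ℚ^n`, polarised by `± A`,
the steps `F^p = ⨁_{r ≥ p} H^{r, n-1-r}`, `p ≥ m`, of whose Hodge filtration are the spans of the derivatives of order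
`< n - p` of the period vector at the point `z = 1 / ξ` (the other steps are their orthogonal complements). -/
structure IsFibre {m : ℕ} (β : Fin m → ℚ) (ξ l : ℂ) (C : Matrix (Fin (2 * m)) (Fin (2 * m)) ℂ)
    (A : Matrix (Fin (2 * m)) (Fin (2 * m)) ℚ) (H : ℕ → Submodule ℂ (Fin (2 * m) → ℂ)) : Prop where
  fil : ∀ p, m ≤ p → (⨆ r : {r : ℕ // p ≤ r ∧ r < 2 * m}, H r) =
    Submodule.span ℂ {v | ∃ i : ℕ, i + p < 2 * m ∧ v = Matrix.vecMul (per β ξ l i) C}
  conj : ∀ p < 2 * m, ∀ v ∈ H p, (fun i => star (v i)) ∈ H (2 * m - 1 - p)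
  orth : ∀ p < 2 * m, ∀ r < 2 * m, p + r ≠ 2 * m - 1 → ∀ v ∈ H p, ∀ w ∈ H r,
    dotProduct v (Matrix.mulVec (toC A) w) = 0
  pos : ∃ ε : ℂ, (ε = 1 ∨ ε = -1) ∧ ∀ p < 2 * m, ∀ v ∈ H p, v ≠ 0 →
    0 < (ε * (Complex.I ^ p * (-Complex.I) ^ (2 * m - 1 - p)) *
      dotProduct v (Matrix.mulVec (toC A) fun i => star (v i))).re

/-- The Hodge operator `Φ` is the multiplication by `p` on `H^{p, n-1-p}`; it generates with the scalars the Lie algebra of
the image of the Deligne torus and is the derivative of the cocharacter `z ↦ (z^p on H^{p,q})`. Matrices act on row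
vectors from the right. -/
def IsHodgeOperator {m : ℕ} (H : ℕ → Submodule ℂ (Fin (2 * m) → ℂ)) (Φ : Matrix (Fin (2 * m)) (Fin (2 * m)) ℂ) : Prop :=
  ∀ p < 2 * m, ∀ v ∈ H p, Matrix.vecMul v Φ = (p : ℂ) • v

/-- `ξ` is a root of a nonzero integral polynomial of degree at most `g` with coefficients of size at most `|ξ|^A` -/
def Height (g A : ℕ) (ξ : ℂ) : Prop :=
  ∃ p : Polynomial ℤ, p ≠ 0 ∧ p.natDegree ≤ g ∧ (∀ j, |(p.coeff j : ℝ)| ≤ ‖ξ‖ ^ A) ∧ Polynomial.aeval ξ p = 0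

/-- The fibre at the point `z = 1 / ξ` of the variation with rational structure `C` and form `A` is Hodge generic: for every
logarithm `l` of `ξ` and every Hodge structure `H` on `ℚ^(2m)` which is this fibre, every rational Lie algebra of matrices
whose complexification contains the Hodge operator (for example the Lie algebra of the Mumford–Tate group of `H`) contains
the whole symplectic Lie algebra of the form `A`. -/
def HodgeGeneric {m : ℕ} (β : Fin m → ℚ) (ξ : ℂ) (C : Matrix (Fin (2 * m)) (Fin (2 * m)) ℂ)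
    (A : Matrix (Fin (2 * m)) (Fin (2 * m)) ℚ) : Prop :=
  ∀ l : ℂ, Complex.exp l = ξ → ∀ H : ℕ → Submodule ℂ (Fin (2 * m) → ℂ), IsFibre β ξ l C A H →
    ∀ 𝔪 : Submodule ℚ (Matrix (Fin (2 * m)) (Fin (2 * m)) ℚ), (∀ X ∈ 𝔪, ∀ Y ∈ 𝔪, X * Y - Y * X ∈ 𝔪) →
    (∀ Φ, IsHodgeOperator H Φ → Φ ∈ Submodule.span ℂ (toC '' (𝔪 : Set (Matrix (Fin (2 * m)) (Fin (2 * m)) ℚ)))) →
    ∀ X : Matrix (Fin (2 * m)) (Fin (2 * m)) ℚ, X * A + A * X.transpose = 0 → X ∈ 𝔪

theorem N_eq (n : ℕ) : N n = Pool.Agent.Y113.MT.NN ℂ n := rfl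

theorem S_eq (n : ℕ) : S n = Pool.Agent.Y113.MT.SS ℂ n := rfl

theorem toC_eq {n : ℕ} (M : Matrix (Fin n) (Fin n) ℚ) : toC M = Pool.Agent.Y113.MT.cq M := rfl

/-- Let `m ≥ 2` and let `β_1, …, β_m` be rational numbers in `(0, 1)`. For all sufficiently large `G` there is `K` such that
for all `g`, all `H` and all algebraic numbers `ξ` with `(H + 2)^((g + 2)^K) ≤ |ξ|` which are roots of nonzero integral
polynomials of degree `≤ g` with coefficients of absolute value at most `|ξ|^g` and all rational structures `(C, A)` the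
fibres at the points `z = 1 / (ξ - G u)`, `1 ≤ u ≤ H`, are Hodge generic with at most `m + 1` exceptions. -/
theorem result {m : ℕ} (hm : 2 ≤ m) (β : Fin m → ℚ) (hβ : ∀ j, 0 < β j ∧ β j < 1) :
    ∃ G0 : ℕ, ∀ G : ℕ, G0 ≤ G → ∃ K : ℕ, ∀ (g H : ℕ) (ξ : ℂ), ((H : ℝ) + 2) ^ (g + 2) ^ K ≤ ‖ξ‖ → Height g g ξ →
      (∀ u : ℕ, u ≤ H → 1 < ‖ξ - ((G * u : ℕ) : ℂ)‖) ∧
      ∀ (C : Matrix (Fin (2 * m)) (Fin (2 * m)) ℂ) (A : Matrix (Fin (2 * m)) (Fin (2 * m)) ℚ), RationalStructure C A →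
      ∃ S : Finset ℕ, S.card ≤ m + 1 ∧ ∀ u : ℕ, 1 ≤ u → u ≤ H → u ∉ S → HodgeGeneric β (ξ - ((G * u : ℕ) : ℂ)) C A := by
  have hβ' : ∀ j, ∀ a : ℤ, β j ≠ a := by
    intro j a h
    have h1 := hβ j
    rw [h] at h1
    have h2 : (0 : ℤ) < a := by exact_mod_cast h1.1
    have h3 : a < (1 : ℤ) := by exact_mod_cast h1.2
    omega
  have hpi : (2 * (Real.pi : ℂ) * Complex.I) ≠ 0 := Complex.two_pi_I_ne_zero
  obtain ⟨G0, hG01, h0⟩ := Pool.Agent.R351.GD.H.win_unif_g Pool.Agent.Y730.MT.nf Pool.Agent.Y730.MT.td hm hβ'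
  refine ⟨G0, fun G hG => ?_⟩
  obtain ⟨ef, ⟨K, hK⟩, hE⟩ := h0 G hG
  refine ⟨K, fun g H ξ hξ hht => ?_⟩
  have hH2 : (1 : ℝ) ≤ (H : ℝ) + 2 := by
    have : (0 : ℝ) ≤ H := Nat.cast_nonneg H
    linarith
  obtain ⟨h1, h2⟩ := hE g H ξ ((pow_le_pow_right₀ hH2 (hK g)).trans hξ) hht
  refine ⟨fun u hu => by linarith [h1 u hu], fun C A hC => ?_⟩
  obtain ⟨hdet, ⟨M, hM⟩, κ, hκ, hA⟩ := hC
  obtain ⟨S, hS, hS2⟩ := h2 C M _ hdet hpi hM
  refine ⟨S, hS, fun u hu1 hu2 huS l _ Hh hH 𝔪 hbr hΦ X hX => ?_⟩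
  exact hS2 u hu1 hu2 huS l A κ hκ hA (fun p => ⨆ r : {r : ℕ // p ≤ r ∧ r < 2 * m}, Hh r) Hh
    (fun p hp => hH.fil p hp) ⟨fun _ => rfl, hH.conj, hH.orth, hH.pos⟩ 𝔪 hbr hΦ X hX

end Pool.Agent.Results.MP_cb64b0_ag.GrowingAlgebraicWindows
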